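import Mathlib
import Pool.Agent.V11117.SU1
import Pool.Agent.V11117.SU2
import Pool.Agent.V11117.SU3
import Pool.Agent.V11117.SU4
import Pool.Agent.V11117.SU5
import Pool.Agent.V11117.SU6

namespace Pool.Agent.Results.MP_0d7d6c_co.SuspensionLimit

open Pool.Agent.V11117.SU MeasureTheory Filter Polynomial

/-- Q1, proved: for every finite graph G 0 on at least one vertex, and every sequence of graphs
such that G (n+1) is (isomorphic to) the suspension of G n, the proportion P(G n) of realizable
spectra tends to 1. -/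
theorem result (V : ℕ → Type) [∀ n, Fintype (V n)] (G : ∀ n, SimpleGraph (V n))
    (h0 : 0 < Fintype.card (V 0))
    (hG : ∀ n, Nonempty (G (n + 1) ≃g susp (G n))) :
    Tendsto (fun n => P (G n)) atTop (nhds 1) := by
  classical
  have hcard : ∀ n, Fintype.card (V n) = Fintype.card (V 0) + n := by
    intro n
    induction n with
    | zero => rfl
    | succ n ih =>
      have h1 := Fintype.card_congr (hG n).some.toEquiv
      rw [h1, Fintype.card_sum, ih]
      simp
      ring
  set n0 : ℕ := Fintype.card (V 0) with hn0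
  obtain ⟨l0, ρ, hρ, hl0, hbase⟩ := base_ball n0 h0
  have H0 : ∀ l : Fin n0 → ℝ, (∀ j, |l j - l0 j| < ρ) →
      Realizable (G (0 + 1)) (Finset.univ.val.map l) := by
    intro l hl
    obtain ⟨w, hw0, hw⟩ := hbase l hl
    let e : V 0 ≃ Fin n0 := Fintype.equivFin (V 0)
    have h1 : Realizable (susp (G 0)) (Finset.univ.val.map l) := by
      apply star_realizable (G 0) (fun v => w (e v)) (fun v => hw0 _)
      have h2 : ∏ v : V 0, (X - C (w (e v))) = ∏ j : Fin n0, (X - C (w j)) :=
        Equiv.prod_comp e (fun j => X - C (w j))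
      rw [h2, hw, Multiset.map_map]
      rfl
    exact realizable_iso (hG 0).some.symm h1
  have H1 : ∀ (j : ℕ) (s : Multiset ℝ) (t : ℝ), Realizable (G (j + 1)) s → 0 ≤ t →
      Realizable (G (j + 1 + 1)) ((((n0:ℝ) + 2 + j) * t) ::ₘ s.map (fun a => a + t)) := by
    intro j s t hs ht
    have h1 := realizable_susp (G (j + 1)) hs ht
    rw [hcard (j + 1)] at h1
    have h2 : (((n0 + (j + 1) : ℕ) : ℝ) + 1) = (n0:ℝ) + 2 + j := by
      push_cast; ring
    rw [h2] at h1
    exact realizable_iso (hG (j + 1)).some.symm h1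
  rw [Metric.tendsto_atTop]
  intro η hη
  have hprob := prob_main (R := fun j s => Realizable (G (j + 1)) s) hρ hl0 H0 H1 (half_pos hη)
  obtain ⟨N, hN⟩ := eventually_atTop.mp hprob
  refine ⟨N + 2, fun n hn => ?_⟩
  obtain ⟨m, hm⟩ : ∃ m, n0 + n = m + 2 := ⟨n0 + n - 2, by omega⟩
  obtain ⟨B, hB, hBη, hBy⟩ := hN (m + 1) (by omega)
  have hn1 : m + 1 - n0 = n - 1 := by omega
  have hn2 : n - 1 + 1 = n := by omega
  have hbound := P_bound (G n) (m := m) (by rw [hcard n]; exact hm) hB (by
    intro y hy0 hyB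
    have h3 := hBy y hy0 hyB
    rw [hn1] at h3
    rw [hn2] at h3
    exact h3)
  rw [Real.dist_eq, abs_lt]
  constructor
  · linarith [hbound.1]
  · linarith [hbound.2]

end Pool.Agent.Results.MP_0d7d6c_co.SuspensionLimit
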